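import Pool.Agent.T9h44.NK.Spec5

/-!
# Project NK (helper44, MP_727bc7_co): B5
-/

set_option autoImplicit false

namespace Pool.Agent.T9h18.NK

open Pool.Agent.T9h98.DC Pool.Agent.T9h44.NK

/-- **B5.** -/
theorem b5 : S_ABS → S_FX → S_B5 := by
  intro hA hF n hn P H c hP hH hU hE hc0 hc4 hT
  obtain ⟨X, hX, hC⟩ := hF n P H c hP hH hU hE hc0 (by linarith) hT
  have h1 : 0 < 1 + c := by linarith
  have hq0 : 0 < c / (1 + c) := by positivity
  have hq5 : c / (1 + c) < 1 / 5 := by
    rw [div_lt_div_iff₀ h1 (by norm_num)]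
    linarith
  have hne : X.Nonempty := Finset.card_pos.1 (by omega)
  have h2 := hA n (c / (1 + c)) X hq0 (by linarith) hne hC
  have h3 : (16 : ℝ) ≤ X.card := by exact_mod_cast (by omega : 16 ≤ X.card)
  nlinarith

end Pool.Agent.T9h18.NK
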