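import Pool.Agent.T9h48.NK.Qj5

/-!
# Project NK (helper44, MP_727bc7_co): the base from a bound for the number of vectors
-/

set_option autoImplicit false

namespace Pool.Agent.T9h18.NK

open Pool.Agent.T9h98.DC Pool.Agent.T9h44.NK Pool.Agent.T9h48.NK

/-- The base `BaseB a N0` from `|X| ≤ N0` for the configurations with `q < 1 / (a + 1)`. -/
theorem baseb {a N0 : ℕ} (ha : 1 ≤ a)
    (hA : ∀ (m : ℕ) (q : ℝ) (X : Finset (E m)), 0 < q → q < 1 / ((a : ℝ) + 1) → Cfg q X → X.card ≤ N0)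
    (hF : S_FX) : BaseB a N0 := by
  intro n hn P H c hP hH hU hE hc0 hc hT
  have ha' : (0 : ℝ) < a := by exact_mod_cast ha
  have hc1 : c < 1 := lt_of_lt_of_le hc (by rw [div_le_one ha']; exact_mod_cast ha)
  obtain ⟨X, hX, hC⟩ := hF n P H c hP hH hU hE hc0 hc1 hT
  have h1 : 0 < 1 + c := by linarith
  have h2 : c * a < 1 := by rwa [lt_div_iff₀ ha'] at hc
  have h3 := hA n (c / (1 + c)) X (by positivity) (by
    rw [div_lt_div_iff₀ h1 (by positivity)]
    linarith) hC
  omega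

end Pool.Agent.T9h18.NK
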