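import Pool.Agent.T9h44.NK.SpecA
import Pool.Agent.T9h44.NK.SpecB

/-!
# Project NK (helper44, MP_727bc7_co): transitivity on the edges with a vertex gives equal edges
-/

set_option autoImplicit false

open Set
open scoped RealInnerProductSpace

namespace Pool.Agent.T9h18.NK

open Pool.Agent.T9h98.DC Pool.Agent.T9h44.NK

/-- the chain of a vertex and an edge -/
noncomputable def ch2 {d : ℕ} {P : Set (E d)} {v w : E d} (h0 : IsFace P {v}) (h1 : IsFace P (segment ℝ v w))
    (h2 : dm (segment ℝ v w) = 1) : Ch P 2 where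
  face := ![{v}, segment ℝ v w]
  isFace i := by
    fin_cases i
    · exact h0
    · exact h1
  dim i := by
    fin_cases i
    · change Module.finrank ℝ (vectorSpan ℝ {v}) = 0
      rw [vectorSpan_singleton]
      exact finrank_bot ℝ _
    · exact h2
  mono := by
    intro i j hij
    fin_cases i <;> fin_cases j
    · exact le_rfl
    · exact Set.singleton_subset_iff.2 (left_mem_segment ℝ v w)
    · exact absurd hij (by decide)
    · exact le_rfl

/-- a segment and one end determine the other end -/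
theorem seg_right {d : ℕ} {v w u : E d} (h : segment ℝ v u = segment ℝ v w) (hw : v ≠ w) : u = w := by
  have h1 : u ∈ segment ℝ v w := h ▸ right_mem_segment ℝ v u
  have h2 : w ∈ segment ℝ v u := h.symm ▸ right_mem_segment ℝ v w
  rw [segment_eq_image'] at h1 h2
  obtain ⟨a, ⟨ha0, ha1⟩, hae⟩ := h1
  obtain ⟨b, ⟨hb0, hb1⟩, hbe⟩ := h2
  simp only at hae hbe
  have h3 : u - v = a • (w - v) := by rw [← hae]; abel
  have h4 : w - v = b • (u - v) := by
    conv_lhs => rw [← hbe]
    abel
  have h5 : (1 - b * a) • (w - v) = 0 := by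
    rw [sub_smul, one_smul, mul_smul, ← h3, ← h4, sub_self]
  have h6 : 1 - b * a = 0 := by
    rcases smul_eq_zero.1 h5 with h | h
    · exact h
    · exact absurd (sub_eq_zero.1 h).symm hw
  have h7 : a = 1 := by nlinarith
  rw [h7, one_smul] at h3
  exact sub_left_injective h3

/-- **ECP.** -/
theorem ecp : S_FACES → S_ECP := by
  intro hFA d P H hP hH hU hT
  obtain ⟨-, -, -, -, -, -, -, -, hadj, -⟩ := hFA (d + 1) P hP.1
  by_cases hex : ∃ v w, Adj P v w
  · obtain ⟨v, w, hvw⟩ := hex
    obtain ⟨hv, hw, -, hd⟩ := hadj v w hvw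
    refine ⟨⟪v, w⟫, ?_, fun v' w' hvw' => ?_⟩
    · exact (inner_lt_one_iff_real_of_norm_eq_one (hU v hv) (hU w hw)).2 hvw.1
    · obtain ⟨hv', hw', -, hd'⟩ := hadj v' w' hvw'
      obtain ⟨h, -, hh⟩ := hT (ch2 hv hvw.2 hd) (ch2 hv' hvw'.2 hd')
      have e0 : h '' {v} = {v'} := hh 0
      have e1 : h '' segment ℝ v w = segment ℝ v' w' := hh 1
      have e2 : h v = v' := by
        rw [image_singleton] at e0
        exact singleton_injective e0
      have e3 : segment ℝ v' (h w) = segment ℝ v' w' := by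
        rw [← e1, ← e2]
        exact (image_segment ℝ (h.toLinearEquiv : E (d + 1) →ₗ[ℝ] E (d + 1)).toAffineMap v w).symm
      have e4 : h w = w' := seg_right e3 hvw'.1
      rw [← e2, ← e4, LinearIsometryEquiv.inner_map_map]
  · exact ⟨0, one_pos, fun v w h => absurd ⟨v, w, h⟩ hex⟩

end Pool.Agent.T9h18.NK
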