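import Pool.Agent.T9h98.NK.SpecS

/-!
# Project NK (helper44, helper98, MP_727bc7_co): local data at a vertex whose figure is a cube
-/

set_option autoImplicit false

open Set
open scoped RealInnerProductSpace

namespace Pool.Agent.T9h18.NK

open Pool.Agent.T9h98.DC Pool.Agent.T9h44.NK Pool.Agent.T9h98.NK

/-- the inner product in an orthonormal basis -/
theorem inner_basis {D : ℕ} (b : OrthonormalBasis (Fin D) ℝ (E D)) (x y : E D) :
    ⟪x, y⟫ = ∑ i, ⟪x, b i⟫ * ⟪y, b i⟫ := by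
  rw [← b.sum_inner_mul_inner x y]
  refine Finset.sum_congr rfl fun i _ => ?_
  rw [real_inner_comm y (b i)]

theorem inner_same {D : ℕ} (b : OrthonormalBasis (Fin D) ℝ (E D)) {r : ℝ} {x : E D}
    (hx : ∀ i, ⟪x, b i⟫ = r ∨ ⟪x, b i⟫ = -r) : ⟪x, x⟫ = D * r ^ 2 := by
  rw [inner_basis b]
  have h : ∀ i, ⟪x, b i⟫ * ⟪x, b i⟫ = r ^ 2 := by
    intro i
    rcases hx i with h | h <;> rw [h] <;> ring
  simp only [h, Finset.sum_const, Finset.card_univ, Fintype.card_fin, nsmul_eq_mul]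

theorem inner_adj {D : ℕ} (b : OrthonormalBasis (Fin D) ℝ (E D)) {r : ℝ} {x y : E D}
    (hx : ∀ i, ⟪x, b i⟫ = r ∨ ⟪x, b i⟫ = -r) (i : Fin D) (hi : ⟪y, b i⟫ = -⟪x, b i⟫)
    (hj : ∀ j, j ≠ i → ⟪y, b j⟫ = ⟪x, b j⟫) : ⟪x, y⟫ = D * r ^ 2 - 2 * r ^ 2 := by
  rw [inner_basis b]
  have h : ∀ j, ⟪x, b j⟫ * ⟪y, b j⟫ = r ^ 2 - (if j = i then 2 * r ^ 2 else 0) := by
    intro j
    split_ifs with hji
    · subst hji
      rw [hi]
      rcases hx j with h | h <;> rw [h] <;> ring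
    · rw [hj j hji]
      rcases hx j with h | h <;> rw [h] <;> ring
  simp only [h, Finset.sum_sub_distrib, Finset.sum_const, Finset.card_univ, Fintype.card_fin, nsmul_eq_mul,
    Finset.sum_ite_eq', Finset.mem_univ, if_true]

theorem inner_two {D : ℕ} (b : OrthonormalBasis (Fin D) ℝ (E D)) {r : ℝ} {x y z : E D}
    (hx : ∀ i, ⟪x, b i⟫ = r ∨ ⟪x, b i⟫ = -r) (i : Fin D) (hi : ⟪y, b i⟫ = -⟪x, b i⟫)
    (hi' : ∀ j, j ≠ i → ⟪y, b j⟫ = ⟪x, b j⟫) (k : Fin D) (hk : ⟪z, b k⟫ = -⟪x, b k⟫)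
    (hk' : ∀ j, j ≠ k → ⟪z, b j⟫ = ⟪x, b j⟫) (hik : i ≠ k) :
    ⟪y, z⟫ = D * r ^ 2 - 2 * r ^ 2 - 2 * r ^ 2 := by
  rw [inner_basis b]
  have h : ∀ j, ⟪y, b j⟫ * ⟪z, b j⟫ =
      r ^ 2 - (if j = i then 2 * r ^ 2 else 0) - (if j = k then 2 * r ^ 2 else 0) := by
    intro j
    by_cases hji : j = i
    · subst hji
      rw [if_pos rfl, if_neg hik, hi, hk' j hik]
      rcases hx j with h | h <;> rw [h] <;> ring
    · rw [if_neg hji, hi' j hji]
      by_cases hjk : j = k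
      · subst hjk
        rw [if_pos rfl, hk]
        rcases hx j with h | h <;> rw [h] <;> ring
      · rw [if_neg hjk, hk' j hjk]
        rcases hx j with h | h <;> rw [h] <;> ring
  simp only [h, Finset.sum_sub_distrib, Finset.sum_const, Finset.card_univ, Fintype.card_fin, nsmul_eq_mul,
    Finset.sum_ite_eq', Finset.mem_univ, if_true]

theorem nin {D : ℕ} {n : E (D + 1)} {ι : E D →ₗᵢ[ℝ] E (D + 1)} (h : Ort n ι) (x y : E D) :
    ⟪n + ι x, n + ι y⟫ = ⟪n, n⟫ + ⟪x, y⟫ := by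
  rw [inner_add_left, inner_add_right, inner_add_right, h y, real_inner_comm n (ι x), h x, ι.inner_map_map]
  ring

/-- the vertex with the `i`-th sign changed -/
theorem flip {D : ℕ} (b : OrthonormalBasis (Fin D) ℝ (E D)) (x : E D) (i : Fin D) :
    ∃ y : E D, ⟪y, b i⟫ = -⟪x, b i⟫ ∧ ∀ j, j ≠ i → ⟪y, b j⟫ = ⟪x, b j⟫ := by
  refine ⟨x - (2 * ⟪x, b i⟫) • b i, ?_, fun j hj => ?_⟩
  · rw [inner_sub_left, real_inner_smul_left, real_inner_self_eq_norm_sq, b.norm_eq_one]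
    ring
  · rw [inner_sub_left, real_inner_smul_left, b.inner_eq_zero hj.symm]
    ring

/-- **LOCC.** -/
theorem locc : S_NB → S_CENC → S_G3 → S_LOCC := by
  intro hNB hCC hG3 D P H v n ι hD hP hH hv hHyp hReg
  obtain ⟨c, r, b, hr, hQ⟩ := hReg
  have hc : c = 0 := hCC D P H v n ι hD hP hH hv hHyp c r b hr hQ
  subst hc
  obtain ⟨hsup, hn, hort, -, -⟩ := hHyp
  obtain ⟨hN1, hN2, hN3, hN4⟩ := hNB D P v n ι hP hv hsup hn hort
  obtain ⟨hG1, hG2⟩ := hG3 D (fig v n ι P) 0 r b hr hQ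
  simp only [sub_zero] at hG1 hG2
  have hDr : (0 : ℝ) < D := by exact_mod_cast (by omega : 0 < D)
  have hnn : 0 < ⟪n, n⟫ := by
    rw [real_inner_self_eq_norm_sq]
    have := norm_pos_iff.2 hn
    positivity
  set N : ℝ := ⟪n, n⟫ with hN
  have hM : 0 < N + D * r ^ 2 := by positivity
  -- norms
  have hnorm : ∀ x, Vx (fig v n ι P) x → ‖n + ι x‖ = √(N + D * r ^ 2) := by
    intro x hx
    rw [norm_eq_sqrt_real_inner, nin hort, inner_same b ((hG1 x).1 hx)]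
  have hprod : ∀ y y' x x', Pr v n ι y x → Pr v n ι y' x' → Vx (fig v n ι P) x → Vx (fig v n ι P) x' →
      ∃ τ : ℝ, ‖y - v‖ * ‖y' - v‖ = τ * (N + D * r ^ 2) ∧ ⟪y - v, y' - v⟫ = τ * (N + ⟪x, x'⟫) := by
    rintro y y' x x' ⟨t, ht, he⟩ ⟨t', ht', he'⟩ hx hx'
    refine ⟨t * t', ?_, ?_⟩
    · rw [he, he', norm_smul, norm_smul, hnorm x hx, hnorm x' hx', Real.norm_of_nonneg ht.le,
        Real.norm_of_nonneg ht'.le]
      have := Real.mul_self_sqrt hM.le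
      calc t * √(N + D * r ^ 2) * (t' * √(N + D * r ^ 2))
          = t * t' * (√(N + D * r ^ 2) * √(N + D * r ^ 2)) := by ring
        _ = _ := by rw [this]
    · rw [he, he', real_inner_smul_left, real_inner_smul_right, nin hort]
      ring
  -- corners
  have hcor : ∀ y y', Cor P v y y' → ∃ x x', Pr v n ι y x ∧ Pr v n ι y' x' ∧ Vx (fig v n ι P) x ∧
      Vx (fig v n ι P) x' ∧ Adj (fig v n ι P) x x' := by
    rintro y y' ⟨h1, h2, h3, h4⟩
    obtain ⟨x, hx, hp⟩ := hN1 y h1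
    obtain ⟨x', hx', hp'⟩ := hN1 y' h2
    exact ⟨x, x', hp, hp', hx, hx', (hN4 y y' x x' h1 h2 hp hp').2 ⟨h3, h4⟩⟩
  refine ⟨(N + (D * r ^ 2 - 2 * r ^ 2)) / (N + D * r ^ 2), ?_, ?_, ?_, ?_, ?_⟩
  · rw [div_lt_one hM]
    have : 0 < r ^ 2 := by positivity
    linarith
  · rw [lt_div_iff₀ hM]
    have h1 : (1 - 2 / (D : ℝ)) * (N + D * r ^ 2) = N + D * r ^ 2 - 2 * r ^ 2 - 2 / D * N := by
      field_simp
      ring
    rw [h1]
    have : 0 < 2 / (D : ℝ) * N := by positivity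
    linarith
  · intro y y' h
    obtain ⟨x, x', hp, hp', hx, hx', hadj⟩ := hcor y y' h
    obtain ⟨τ, e1, e2⟩ := hprod y y' x x' hp hp' hx hx'
    obtain ⟨i, hi, hj⟩ := (hG2 x x' hx hx').1 hadj
    rw [e1, e2, inner_adj b ((hG1 x).1 hx) i hi hj]
    field_simp
  · intro y y' y'' h h' hne
    obtain ⟨x, x', hp, hp', hx, hx', hadj⟩ := hcor y y' h
    obtain ⟨x1, x'', hp1, hp'', hx1, hx'', hadj'⟩ := hcor y y'' h'
    have hxx : x1 = x := (hN3 y y x1 x h.1 h.1 hp1 hp).2 rfl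
    subst hxx
    obtain ⟨τ, e1, e2⟩ := hprod y' y'' x' x'' hp' hp'' hx' hx''
    obtain ⟨i, hi, hj⟩ := (hG2 x1 x' hx hx').1 hadj
    obtain ⟨k, hk, hk'⟩ := (hG2 x1 x'' hx hx'').1 hadj'
    have hik : i ≠ k := by
      rintro rfl
      refine hne ((hN3 y' y'' x' x'' h.2.1 h'.2.1 hp' hp'').1 ?_)
      refine InnerProductSpace.ext_inner_right_basis b.toBasis fun j => ?_
      rw [b.coe_toBasis]
      by_cases hji : j = i
      · rw [hji, hi, hk]
      · rw [hj j hji, hk' j hji]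
    rw [e1, e2, inner_two b ((hG1 x1).1 hx) i hi hj k hk hk' hik]
    field_simp
    ring
  · intro y hy
    obtain ⟨x, hx, hp⟩ := hN1 y hy
    have hsx := (hG1 x).1 hx
    have hnew : ∀ i : Fin D, ∃ y' x', Adj P v y' ∧ Pr v n ι y' x' ∧ Cor P v y y' ∧
        ⟪x', b i⟫ = -⟪x, b i⟫ ∧ ∀ j, j ≠ i → ⟪x', b j⟫ = ⟪x, b j⟫ := by
      intro i
      obtain ⟨x', h1, h2⟩ := flip b x i
      have hx' : Vx (fig v n ι P) x' := by
        rw [hG1]
        intro j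
        by_cases hji : j = i
        · subst hji
          rw [h1]
          rcases hsx j with h | h
          · right; rw [h]
          · left; rw [h, neg_neg]
        · rw [h2 j hji]
          exact hsx j
      obtain ⟨y', hy', hp'⟩ := hN2 x' hx'
      have hadj := (hG2 x x' hx hx').2 ⟨i, h1, h2⟩
      exact ⟨y', x', hy', hp', ⟨hy, hy', (hN4 y y' x x' hy hy' hp hp').1 hadj⟩, h1, h2⟩
    obtain ⟨y', x', h1, h2, h3, h4, h5⟩ := hnew ⟨0, by omega⟩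
    obtain ⟨y'', x'', h1', h2', h3', h4', h5'⟩ := hnew ⟨1, by omega⟩
    refine ⟨y', y'', fun he => ?_, h3, h3'⟩
    have hxx := (hN3 y' y'' x' x'' h1 h1' h2 h2').2 he
    have h6 := h5' ⟨0, by omega⟩ (by simp [Fin.ext_iff])
    rw [← hxx, h4] at h6
    rcases hsx ⟨0, by omega⟩ with h | h <;> rw [h] at h6 <;> linarith

end Pool.Agent.T9h18.NK
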