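import Pool.Agent.T9h44.NK.SpecA

/-!
# Project NK (helper44, MP_727bc7_co): the 2-faces containing an edge span
-/

set_option autoImplicit false

open Set Filter Topology
open scoped RealInnerProductSpace

namespace Pool.Agent.T9h18.NK

open Pool.Agent.T9h98.DC Pool.Agent.T9h44.NK

/-- a point of a set with interior points, from which one can move a little in every direction -/
theorem exists_small {m : ℕ} {F : Set (E m)} (hF : (interior F).Nonempty) :
    ∃ x0 ∈ F, ∀ w : E m, ∃ ε : ℝ, ε ≠ 0 ∧ x0 + ε • w ∈ F := by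
  obtain ⟨x0, hx0⟩ := hF
  refine ⟨x0, interior_subset hx0, fun w => ?_⟩
  have h1 : Tendsto (fun ε : ℝ => x0 + ε • w) (𝓝 0) (𝓝 x0) := by
    have hc : Continuous (fun ε : ℝ => x0 + ε • w) := by fun_prop
    have h := hc.tendsto 0
    simpa using h
  have h2 : ∀ᶠ ε in 𝓝 (0 : ℝ), x0 + ε • w ∈ F := h1 (mem_interior_iff_mem_nhds.1 hx0)
  have h3 : ∀ᶠ ε in 𝓝[≠] (0 : ℝ), x0 + ε • w ∈ F := h2.filter_mono nhdsWithin_le_nhds
  obtain ⟨ε, h4, h5⟩ := (h3.and self_mem_nhdsWithin).exists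
  exact ⟨ε, h5, h4⟩

/-- **SPAN.** -/
theorem span : S_FACES → S_VF → S_INV → S_IOTA → S_NB → S_CONE → S_SPAN := by
  intro hFA hVF hINV hIO hNB hCO d P y z a β hP hyz hT
  have hFP : FP P := hP.1
  obtain ⟨-, -, -, -, -, -, -, -, hadj, -⟩ := hFA (d + 2) P hFP
  obtain ⟨hy, hz, -, -⟩ := hadj y z hyz
  have hzP : z ∈ P := hz.2.subset rfl
  obtain ⟨n, hn, hsup, -⟩ := hINV (d + 2) P y ⊥ hFP hy ⟨z, hzP, fun h => hyz.1 h.symm⟩ (by
    intro h hh
    rw [Subgroup.mem_bot] at hh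
    subst hh
    exact image_id P)
  obtain ⟨ι, hort, hsurj⟩ := hIO (d + 1) n hn
  obtain ⟨hfP, -, -, -⟩ := hVF (d + 1) P y n ι hP hy hsup hn hort
  obtain ⟨hN1, hN2, -, hN4⟩ := hNB (d + 1) P y n ι hP hy hsup hn hort
  obtain ⟨xz, hxz, hprz⟩ := hN1 z hyz
  have hadjQ : ∀ x x', Adj (fig y n ι P) x x' → Vx (fig y n ι P) x ∧ Vx (fig y n ι P) x' := by
    obtain ⟨-, -, -, -, -, -, -, -, h, -⟩ := hFA (d + 1) (fig y n ι P) hfP.1
    exact fun x x' hx => ⟨(h x x' hx).1, (h x x' hx).2.1⟩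
  have key : ∀ x', Adj (fig y n ι P) xz x' → ⟪a, n + ι xz⟫ = 0 ∧ ⟪a, n + ι x'⟫ = 0 := by
    intro x' hx'
    obtain ⟨y', hyy', hpr'⟩ := hN2 x' (hadjQ _ _ hx').2
    obtain ⟨-, T, hTf, hTd, h1, h2, h3⟩ := (hN4 z y' xz x' hyz hyy' hprz hpr').1 hx'
    have e1 := hT T hTf hTd h1 h2 y h1
    have e2 := hT T hTf hTd h1 h2 z h2
    have e3 := hT T hTf hTd h1 h2 y' h3
    obtain ⟨t, ht, het⟩ := hprz
    obtain ⟨t', ht', het'⟩ := hpr'
    constructor
    · have h4 : ⟪a, z - y⟫ = 0 := by rw [inner_sub_right, e1, e2, sub_self]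
      rw [het, real_inner_smul_right] at h4
      exact (mul_eq_zero.1 h4).resolve_left ht.ne'
    · have h4 : ⟪a, y' - y⟫ = 0 := by rw [inner_sub_right, e1, e3, sub_self]
      rw [het', real_inner_smul_right] at h4
      exact (mul_eq_zero.1 h4).resolve_left ht'.ne'
  obtain ⟨x0, hx0, hx0'⟩ := exists_small hfP.2
  have hex : ∃ x', Adj (fig y n ι P) xz x' := by
    by_contra hne
    have hall : ∀ x ∈ fig y n ι P, x = xz := by
      intro x hx
      obtain ⟨S, c, hS, he⟩ := hCO d (fig y n ι P) xz hfP hxz x hx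
      have hS0 : S = ∅ := Finset.eq_empty_of_forall_notMem (fun s hs => hne ⟨s, (hS s hs).1⟩)
      rw [hS0, Finset.sum_empty] at he
      exact sub_eq_zero.1 he
    obtain ⟨ε, hε, hmem⟩ := hx0' (EuclideanSpace.single 0 1)
    have h1 := hall _ hx0
    have h2 := hall _ hmem
    rw [h1] at h2
    have h3 : ε • (EuclideanSpace.single (0 : Fin (d + 1)) (1 : ℝ)) = 0 := add_eq_left.1 h2
    rcases smul_eq_zero.1 h3 with h | h
    · exact hε h
    · have h5 := congrArg norm h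
      rw [EuclideanSpace.norm_single, norm_zero, norm_one] at h5
      exact one_ne_zero h5
  obtain ⟨x1, hx1⟩ := hex
  have hz0 := (key x1 hx1).1
  have hall : ∀ x ∈ fig y n ι P, ⟪a, n + ι x⟫ = 0 := by
    intro x hx
    obtain ⟨S, c, hS, he⟩ := hCO d (fig y n ι P) xz hfP hxz x hx
    have h1 : n + ι x = (n + ι xz) + ι (x - xz) := by rw [map_sub]; abel
    rw [h1, he, map_sum, inner_add_right, hz0, inner_sum, zero_add]
    refine Finset.sum_eq_zero fun s hs => ?_
    have h2 := (key s (hS s hs).1).2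
    rw [inner_add_right] at h2
    have h3 := hz0
    rw [inner_add_right] at h3
    rw [map_smul, real_inner_smul_right, map_sub, inner_sub_right]
    have h4 : ⟪a, ι s⟫ - ⟪a, ι xz⟫ = 0 := by linarith
    rw [h4, mul_zero]
  have hfun : ∀ w : E (d + 1), ⟪a, ι w⟫ = 0 := by
    intro w
    obtain ⟨ε, hε, hmem⟩ := hx0' w
    have h1 := hall _ hx0
    have h2 := hall _ hmem
    rw [map_add, map_smul, ← add_assoc, inner_add_right, h1, zero_add, real_inner_smul_right] at h2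
    exact (mul_eq_zero.1 h2).resolve_left hε
  have hn0 : ⟪a, n⟫ = 0 := by
    have h1 := hall _ hx0
    rw [inner_add_right, hfun, add_zero] at h1
    exact h1
  obtain ⟨x, hx⟩ := hsurj a (by rw [real_inner_comm]; exact hn0)
  have h1 := hfun x
  rw [hx] at h1
  exact inner_self_eq_zero.1 h1

end Pool.Agent.T9h18.NK
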