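import Pool.Agent.T9h44.NK.SpecA
import Pool.Agent.T9h44.NK.SpecB

/-!
# Project NK (helper44, MP_727bc7_co): the simple case
-/

set_option autoImplicit false

open Set
open scoped RealInnerProductSpace

namespace Pool.Agent.T9h18.NK

open Pool.Agent.T9h98.DC Pool.Agent.T9h44.NK

/-- **SS.** -/
theorem ss : S_FACES → S_M3 → S_SS1 → S_SS2 → S_SS3 → S_SS := by
  intro hFA hM3 hS1 hS2 hS3 d P s κ hP hS
  obtain ⟨k, hk, hκ⟩ := hS1 d P s κ hP hS
  obtain ⟨-, -, -, -, hne, -, -, -, hadj, -⟩ := hFA (d + 5) P hP.1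
  obtain ⟨-, v, hv⟩ := hne (hP.2.mono interior_subset)
  obtain ⟨hs, hlen, hX, hang⟩ := id hS
  obtain ⟨X, hcard, hXm⟩ := hX v hv
  obtain ⟨y, hy, z, hz, hyz⟩ := Finset.one_lt_card.1 (show 1 < X.card by omega)
  have hvy := (hXm y).1 hy
  have hvz := (hXm z).1 hz
  obtain ⟨-, T, hTf, hTd, h1, h2, h3⟩ := hang v y z hvy hvz hyz
  rcases hM3 (d + 4) P T s k hP hTf hTd hs (fun a b hab _ _ => hlen a b hab)
    (fun v y z h1 h2 h3 _ _ _ => by
      have h4 := (hang v y z h1 h2 h3).1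
      rw [hκ v (hadj v y h1).1] at h4
      exact h4) v y z hvy hvz hyz h1 h2 h3 with ⟨h, -⟩ | ⟨h, -⟩ | h
  · exact Or.inl (hS2 d P s κ hP hS fun v hv => by rw [hκ v hv, h])
  · exact Or.inr (hS3 d P s κ hP hS fun v hv => by rw [hκ v hv, h])
  · exact absurd h (not_le.2 hk)

end Pool.Agent.T9h18.NK
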